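import Pool.Agent.Lib.MP_b0c7df_gt.Top

/-!
# The filling projective measured laminations of the five-punctured sphere

Let `S` be the sphere with five punctures. A measured lamination of `S`, that is, of the disc with
four punctures (the boundary of the disc being the fifth puncture), is given by its Dynnikov
coordinates `(a₁, a₂, b₁, b₂)`; they identify the space of measured laminations, with the empty one,
with `ℝ⁴` and `PML(S)` with `(ℝ⁴ ∖ 0) / ℝ_{>0}`, a three-sphere. The generators `σ₁`, `σ₂`, `σ₃` of
the braid group act by the usual piecewise linear update rules, and the geometric intersection
numbers with the curve around the first two punctures and with the curve around the first three
punctures are `i12` and `i123`. Every essential simple closed curve of `S` is the image of one of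
these two curves by a braid, so a measured lamination is filling if and only if `i12 (g v)` and
`i123 (g v)` do not vanish for any `g` in the braid group: this is `Filling`.

The theorem says that `FPML(S)` is not `m`-locally connected, for any `m ≥ 0`.

Idea of the proof. Along the images of an edge `[c, d]` of the curve graph by suitable elements `gₖ`
of the group, the sets of laminations with zero intersection with one curve bound small closed
cells which separate a point `ν` of the segment of the measures on a filling lamination which is
not uniquely ergodic from points arbitrarily near to `ν`; `ν` is filling because its four
coordinates are linearly independent over `ℚ`.
-/

namespace Pool.Agent.Results.MP_b0c7df_gt.FpmlNotLocallyConnected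

open Pool.Agent.Lib.MP_b0c7df_gt

/-- For every `m ≥ 0`, the space `FPML(S)` of the filling projective measured laminations on the
sphere `S` with five punctures is not `m`-locally connected. -/
theorem result : ∀ m : ℕ, ¬ MLocallyConnected m FPML := not_mLocallyConnected

end Pool.Agent.Results.MP_b0c7df_gt.FpmlNotLocallyConnected
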